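import Pool.Agent.DQ2.Stmts

/-!
Squad DQ2 (MP_366d03_ag), row NUM: the example for `d = 3`.
-/

set_option autoImplicit false

open MvPolynomial

namespace Pool.Agent.DQ2.H95

open Pool.Agent.DQ2

section

variable {N : ℕ}

theorem lf_add (A B : MvPolynomial (Fin N) ℂ) (x y : Fin N → ℂ) :
    lf (A + B) x y = lf A x y + lf B x y := by
  unfold lf
  rw [← Finset.sum_add_distrib]
  refine Finset.sum_congr rfl (fun j _ => ?_)
  rw [map_add, map_add]
  ring

theorem lf_mul (A B : MvPolynomial (Fin N) ℂ) (x y : Fin N → ℂ) :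
    lf (A * B) x y = eval x A * lf B x y + eval x B * lf A x y := by
  unfold lf
  rw [Finset.mul_sum, Finset.mul_sum, ← Finset.sum_add_distrib]
  refine Finset.sum_congr rfl (fun j _ => ?_)
  rw [Derivation.leibniz, smul_eq_mul, smul_eq_mul, map_add, map_mul, map_mul]
  ring

theorem lf_X (i : Fin N) (x y : Fin N → ℂ) : lf (X i : MvPolynomial (Fin N) ℂ) x y = y i := by
  unfold lf
  rw [Finset.sum_eq_single i]
  · rw [pderiv_X_self, map_one, one_mul]
  · intro j _ hj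
    rw [pderiv_X_of_ne (Ne.symm hj), map_zero, zero_mul]
  · intro h
    exact absurd (Finset.mem_univ i) h

end

theorem eval_F3 (n : ℕ) (hn : 2 ≤ n) (x : Fin (n + 2) → ℂ) :
    eval x (F3 n hn) = x ⟨0, by omega⟩ ^ 3 + x ⟨0, by omega⟩ * x ⟨1, by omega⟩ ^ 2 +
      x ⟨3, by omega⟩ ^ 3 + x ⟨1, by omega⟩ * x ⟨2, by omega⟩ * x ⟨3, by omega⟩ := by
  unfold F3
  simp only [map_add, map_mul, map_pow, eval_X]

theorem lf_F3 (n : ℕ) (hn : 2 ≤ n) (x y : Fin (n + 2) → ℂ) :
    lf (F3 n hn) x y = (3 * x ⟨0, by omega⟩ ^ 2 + x ⟨1, by omega⟩ ^ 2) * y ⟨0, by omega⟩ +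
      (2 * x ⟨0, by omega⟩ * x ⟨1, by omega⟩ + x ⟨2, by omega⟩ * x ⟨3, by omega⟩) *
        y ⟨1, by omega⟩ + x ⟨1, by omega⟩ * x ⟨3, by omega⟩ * y ⟨2, by omega⟩ +
      (3 * x ⟨3, by omega⟩ ^ 2 + x ⟨1, by omega⟩ * x ⟨2, by omega⟩) * y ⟨3, by omega⟩ := by
  unfold F3
  simp only [pow_succ, pow_zero, one_mul, lf_add, lf_mul, lf_X, eval_X, map_mul]
  ring

theorem num : NUM := by
  intro n hn
  refine ⟨?_, ?_, ?_, ?_⟩
  · unfold F3
    refine ((IsHomogeneous.add ?_ ?_).add ?_).add ?_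
    · exact (isHomogeneous_X ℂ _).pow 3
    · exact (isHomogeneous_X ℂ _).mul ((isHomogeneous_X ℂ _).pow 2)
    · exact (isHomogeneous_X ℂ _).pow 3
    · exact ((isHomogeneous_X ℂ _).mul (isHomogeneous_X ℂ _)).mul (isHomogeneous_X ℂ _)
  · have h0 : (⟨0, by omega⟩ : Fin (n + 2)) = 0 := rfl
    unfold F3
    rw [h0, coeff_add, coeff_add, coeff_add]
    have e1 : coeff (Finsupp.single (0 : Fin (n + 2)) 3)
        ((X 0 : MvPolynomial (Fin (n + 2)) ℂ) ^ 3) = 1 := by
      rw [coeff_X_pow, if_pos rfl]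
    have e2 : coeff (Finsupp.single (0 : Fin (n + 2)) 3)
        ((X 0 : MvPolynomial (Fin (n + 2)) ℂ) * X ⟨1, by omega⟩ ^ 2) = 0 := by
      rw [X_pow_eq_monomial, mul_comm, X, monomial_mul, coeff_monomial, if_neg]
      intro h
      have h' := DFunLike.congr_fun h (⟨1, by omega⟩ : Fin (n + 2))
      rw [Finsupp.add_apply, Finsupp.single_eq_same] at h'
      have hne : (0 : Fin (n + 2)) ≠ ⟨1, by omega⟩ := by
        intro hh
        have := congrArg Fin.val hh
        simp at this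
      rw [Finsupp.single_eq_of_ne (Ne.symm hne), Finsupp.single_eq_of_ne (Ne.symm hne)] at h'
      omega
    have e3 : coeff (Finsupp.single (0 : Fin (n + 2)) 3)
        ((X ⟨3, by omega⟩ : MvPolynomial (Fin (n + 2)) ℂ) ^ 3) = 0 := by
      rw [coeff_X_pow, if_neg]
      intro h
      have h' := DFunLike.congr_fun h (⟨3, by omega⟩ : Fin (n + 2))
      rw [Finsupp.single_eq_same] at h'
      have hne : (0 : Fin (n + 2)) ≠ ⟨3, by omega⟩ := by
        intro hh
        have := congrArg Fin.val hh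
        simp at this
      rw [Finsupp.single_eq_of_ne (Ne.symm hne)] at h'
      omega
    have e4 : coeff (Finsupp.single (0 : Fin (n + 2)) 3)
        ((X ⟨1, by omega⟩ : MvPolynomial (Fin (n + 2)) ℂ) * X ⟨2, by omega⟩ * X ⟨3, by omega⟩)
          = 0 := by
      rw [coeff_mul_X', if_neg]
      intro h
      rw [Finsupp.mem_support_iff] at h
      have hne : (0 : Fin (n + 2)) ≠ ⟨3, by omega⟩ := by
        intro hh
        have := congrArg Fin.val hh
        simp at this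
      exact h (Finsupp.single_eq_of_ne (Ne.symm hne))
    rw [e1, e2, e3, e4]
    norm_num
  · rw [eval_F3]
    simp [pt]
  · -- values
    have hp0 : pt (n + 2) (0 : ℂ) ⟨0, by omega⟩ = 0 := by simp [pt]
    have hp1 : pt (n + 2) (0 : ℂ) ⟨1, by omega⟩ = 1 := by simp [pt]
    have hp2 : pt (n + 2) (0 : ℂ) ⟨2, by omega⟩ = 0 := by simp [pt]
    have hp3 : pt (n + 2) (0 : ℂ) ⟨3, by omega⟩ = 0 := by simp [pt]
    have he : ∀ (i j : ℕ) (hj : j < n + 2), ee (n + 2) ℂ i ⟨j, hj⟩ = if j = i then 1 else 0 :=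
      fun i j hj => rfl
    generalize hp : pt (n + 2) (0 : ℂ) = p at *
    -- Q
    have hQ : ∀ j, qq (F3 n hn) p (fun j => ee (n + 2) ℂ 2 j + ee (n + 2) ℂ 3 j) j =
        p j - (ee (n + 2) ℂ 2 j + ee (n + 2) ℂ 3 j) := by
      intro j
      unfold qq sec tg
      simp only [lf_F3, eval_F3, hp0, hp1, hp2, hp3, he]
      norm_num
    have hQ2 : ∀ j, qq (F3 n hn) p (ee (n + 2) ℂ 3) j = p j := by
      intro j
      unfold qq sec tg
      simp only [lf_F3, eval_F3, hp0, hp1, hp2, hp3, he]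
      norm_num
    have hy : ∀ j, phi3 (F3 n hn) p (fun j => ee (n + 2) ℂ 2 j + ee (n + 2) ℂ 3 j)
        (ee (n + 2) ℂ 1) j = sec (F3 n hn) (qq (F3 n hn) p
          (fun j => ee (n + 2) ℂ 2 j + ee (n + 2) ℂ 3 j))
          (tg (F3 n hn) (qq (F3 n hn) p (fun j => ee (n + 2) ℂ 2 j + ee (n + 2) ℂ 3 j))
            (ee (n + 2) ℂ 0) (ee (n + 2) ℂ 1)) j := fun j => rfl
    generalize hq : qq (F3 n hn) p (fun j => ee (n + 2) ℂ 2 j + ee (n + 2) ℂ 3 j) = q at *
    have q0 : q ⟨0, by omega⟩ = 0 := by rw [hQ, hp0, he, he]; norm_num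
    have q1 : q ⟨1, by omega⟩ = 1 := by rw [hQ, hp1, he, he]; norm_num
    have q2 : q ⟨2, by omega⟩ = -1 := by rw [hQ, hp2, he, he]; norm_num
    have q3 : q ⟨3, by omega⟩ = -1 := by rw [hQ, hp3, he, he]; norm_num
    unfold crit
    rw [hq]
    generalize hyy : phi3 (F3 n hn) p (fun j => ee (n + 2) ℂ 2 j + ee (n + 2) ℂ 3 j)
        (ee (n + 2) ℂ 1) = y at *
    have y0 : y ⟨0, by omega⟩ = -2 := by
      rw [hy]; unfold sec tg
      simp only [lf_F3, eval_F3, q0, q1, q2, q3, he]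
      norm_num
    have y1 : y ⟨1, by omega⟩ = 0 := by
      rw [hy]; unfold sec tg
      simp only [lf_F3, eval_F3, q0, q1, q2, q3, he]
      norm_num
    have y2 : y ⟨2, by omega⟩ = 2 := by
      rw [hy]; unfold sec tg
      simp only [lf_F3, eval_F3, q0, q1, q2, q3, he]
      norm_num
    have y3 : y ⟨3, by omega⟩ = 2 := by
      rw [hy]; unfold sec tg
      simp only [lf_F3, eval_F3, q0, q1, q2, q3, he]
      norm_num
    simp only [lf_F3, hQ2, hp0, hp1, hp2, hp3, q0, q1, q2, q3, y0, y1, y2, y3, he]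
    norm_num

end Pool.Agent.DQ2.H95
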